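import Mathlib
import Pool.Agent.MP_246c79_co.H75.Core

set_option autoImplicit false

universe u

namespace Pool.Agent.Results.MP_246c79_co.DisjointChains

/-- A geometric lattice of rank `r`: chains have at most `r + 1` elements and one has exactly
`r + 1`, the lattice is semimodular (in the weak form of Birkhoff, which the usual covering
condition implies), and every element is the join of a set of atoms. -/
structure IsGeometric (L : Type u) [Lattice L] [BoundedOrder L] (r : ℕ) : Prop where
  chain_le : ∀ c : Set L, IsChain (· ≤ ·) c → c.encard ≤ r + 1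
  chain_eq : ∃ c : Set L, IsChain (· ≤ ·) c ∧ c.encard = r + 1
  semimodular : ∀ a b : L, a ⊓ b ⋖ a → a ⊓ b ⋖ b → a ⋖ a ⊔ b
  atomistic : ∀ x : L, ∃ s : Set L, (∀ a ∈ s, IsAtom a) ∧ IsLUB s x

variable {L : Type u} [Lattice L] [BoundedOrder L] {r : ℕ}

lemma height_le (h : IsGeometric L r) (x : L) : Order.height x ≤ r := by
  refine Order.height_le fun p _ => ?_
  have h1 := h.chain_le (Set.range p) (by
    rintro _ ⟨i, rfl⟩ _ ⟨j, rfl⟩ _
    exact (le_total i j).imp (fun h => p.monotone h) fun h => p.monotone h)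
  replace h1 := p.strictMono.injective.encard_range.trans h1
  rw [ENat.card_eq_coe_fintype_card, Fintype.card_fin] at h1
  have h2 : p.length + 1 ≤ r + 1 := by exact_mod_cast h1
  exact_mod_cast Nat.le_of_succ_le_succ h2

lemma exists_rank (h : IsGeometric L r) : ∃ f : L → ℕ, StrictMono f ∧ ∀ x, f x ≤ r := by
  have hf : ∀ x : L, Order.height x ≠ ⊤ := fun x =>
    ((height_le h x).trans_lt (ENat.natCast_lt_top r)).ne
  refine ⟨fun x => (Order.height x).toNat, fun x y hxy => ?_, fun x => ?_⟩
  · have := Order.height_strictMono hxy (hf x).lt_top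
    rw [← ENat.natCast_toNat (hf x), ← ENat.natCast_toNat (hf y)] at this
    exact_mod_cast this
  · have := height_le h x
    rw [← ENat.natCast_toNat (hf x)] at this
    exact_mod_cast this

lemma wf_gt (h : IsGeometric L r) : WellFoundedGT L := by
  obtain ⟨f, hf, hr⟩ := exists_rank h
  have : StrictAnti fun x => r - f x := fun x y hxy => by
    have := hf hxy
    have := hr y
    show r - f y < r - f x
    omega
  exact this.wellFoundedGT

lemma upper (h : IsGeometric L r) : IsUpperModularLattice L := by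
  obtain ⟨f, hf, -⟩ := exists_rank h
  have := hf.wellFoundedLT
  have := wf_gt h
  have key : ∀ c a b : L, a ⊓ b = c → c ⋖ a → b ⋖ a ⊔ b := by
    intro c
    induction c using WellFoundedGT.induction with
    | ind c ih =>
      intro a b hc hca
      have hcb : c ≤ b := hc ▸ inf_le_right
      rcases hcb.eq_or_lt with rfl | hlt
      · rwa [sup_eq_left.2 hca.le]
      · obtain ⟨d, hcd, hdb⟩ := exists_covBy_le_of_lt hlt
        have had : d ⊓ a = c := le_antisymm (hc ▸ le_inf inf_le_right (inf_le_left.trans hdb))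
          (le_inf hcd.le hca.le)
        have h1 : d ⋖ d ⊔ a := h.semimodular d a (had ▸ hcd) (had ▸ hca)
        have h2 : (d ⊔ a) ⊓ b = d := by
          rcases h1.eq_or_eq (le_inf le_sup_left hdb) (inf_le_left (b := b)) with h3 | h3
          · exact h3
          · exfalso
            have h4 : a ≤ b := le_sup_right.trans (inf_eq_left.1 h3)
            rw [inf_eq_left.2 h4] at hc
            exact hca.ne hc.symm
        have h3 := ih d hcd.lt (d ⊔ a) b h2 h1
        rwa [sup_comm d a, sup_assoc, sup_eq_right.2 hdb] at h3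
  exact ⟨fun {a b} hab => key _ a b rfl hab⟩

lemma exists_lub (h : IsGeometric L r) (s : Set L) : ∃ x, IsLUB s x := by
  have := wf_gt h
  obtain ⟨m, hm, hmax⟩ := (wellFounded_gt (α := L)).has_min (lowerBounds (upperBounds s))
    ⟨⊥, fun _ _ => bot_le⟩
  refine ⟨m, fun x hx => ?_, hm⟩
  have h1 : m ⊔ x ∈ lowerBounds (upperBounds s) := fun y hy => sup_le (hm hy) (hy hx)
  by_contra hn
  exact hmax _ h1 (left_lt_sup.2 hn)

theorem result (L : Type u) [Lattice L] [BoundedOrder L] [Infinite L] (r : ℕ)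
    (h : IsGeometric L r) :
    ∃ M : Set (Set {x : L // x ≠ ⊥ ∧ x ≠ ⊤}),
      (∀ m ∈ M, IsMaxChain (· ≤ ·) m) ∧ M.PairwiseDisjoint id ∧
      ∀ a : L, IsAtom a → ∃ m ∈ M, a ∈ Subtype.val '' m := by
  choose sup hsup using exists_lub h
  let : CompleteLattice L :=
    { (inferInstance : Lattice L), (inferInstance : BoundedOrder L) with
      sSup := sup
      isLUB_sSup := hsup
      sInf := fun s => sup (lowerBounds s)
      isGLB_sInf := fun s => isLUB_lowerBounds.1 (hsup _) }
  have := upper h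
  have : IsAtomistic L := ⟨fun b => (h.atomistic b).imp fun s hs => ⟨hs.2, hs.1⟩⟩
  have hf : Order.height (⊤ : L) ≠ ⊤ := ((height_le h ⊤).trans_lt (ENat.natCast_lt_top r)).ne
  obtain ⟨M, h1, h2, h3⟩ := Pool.Agent.MP_246c79_co.H75.core L (Order.height (⊤ : L)).toNat
    (ENat.natCast_toNat hf).symm
  have him : ∀ m ∈ M, Subtype.val '' (Subtype.val ⁻¹' m : Set {x : L // x ≠ ⊥ ∧ x ≠ ⊤}) = m :=
    fun m hm => Set.image_preimage_eq_of_subset fun x hx => ⟨⟨x, (h1 m hm).1 x hx⟩, rfl⟩
  refine ⟨(fun m => Subtype.val ⁻¹' m) '' M, ?_, ?_, ?_⟩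
  · rintro _ ⟨m, hm, rfl⟩
    refine ⟨fun x hx y hy hne => (h1 m hm).2.1 hx hy fun e => hne (Subtype.ext e),
      fun t ht hsub => ?_⟩
    have h4 := (h1 m hm).2.2 (Subtype.val '' t) (by rintro _ ⟨x, -, rfl⟩; exact x.2)
      (by
        rintro _ ⟨x, hx, rfl⟩ _ ⟨y, hy, rfl⟩ hne
        exact ht hx hy fun e => hne (congrArg _ e))
      (by rw [← him m hm]; exact Set.image_mono hsub)
    show Subtype.val ⁻¹' m = t
    rw [← h4, Set.preimage_image_eq _ Subtype.val_injective]
  · rintro _ ⟨m, hm, rfl⟩ _ ⟨m', hm', rfl⟩ hne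
    exact (h2 hm hm' fun e => hne (by rw [e])).preimage _
  · intro a ha
    obtain ⟨m, hm, ham⟩ := h3 a ha
    exact ⟨_, ⟨m, hm, rfl⟩, by rw [him m hm]; exact ham⟩

end Pool.Agent.Results.MP_246c79_co.DisjointChains
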